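import Mathlib

set_option autoImplicit false

open Polynomial
open scoped ENNReal

namespace Pool.Agent.Results.MP_172a45_an.SmallDegree

/-- The sum of the reciprocal distances from `a` to the critical points of `P`, listed with
multiplicity; it is `∞` if one of them is equal to `a`. -/
noncomputable def Sigma (P : ℂ[X]) (a : ℂ) : ℝ≥0∞ :=
  (P.derivative.roots.map fun ζ => (‖a - ζ‖ₑ)⁻¹).sum

theorem log_bound (W : Multiset ℂ) (h0 : ∀ w ∈ W, w ≠ 0) :
    (W.card : ℝ) + Real.log ‖W.prod‖ ≤ (W.map (fun w => ‖w‖)).sum := by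
  induction W using Multiset.induction_on with
  | empty => simp
  | cons w W ih =>
    have h1 := ih (fun x hx => h0 x (Multiset.mem_cons_of_mem hx))
    have hw : w ≠ 0 := h0 w (Multiset.mem_cons_self _ _)
    have hW : W.prod ≠ 0 := by
      rw [Ne, Multiset.prod_eq_zero_iff]
      exact fun h => h0 0 (Multiset.mem_cons_of_mem h) rfl
    rw [Multiset.card_cons, Multiset.prod_cons, Multiset.map_cons, Multiset.sum_cons, norm_mul,
      Real.log_mul (norm_ne_zero_iff.2 hw) (norm_ne_zero_iff.2 hW)]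
    have h2 := Real.log_le_sub_one_of_pos (norm_pos_iff.2 hw)
    push_cast
    linarith

theorem prod_ge_one (T : Multiset ℝ) (h : ∀ t ∈ T, 1 ≤ t) : 1 ≤ T.prod := by
  induction T using Multiset.induction_on with
  | empty => simp
  | cons t T ih =>
    rw [Multiset.prod_cons]
    have h1 := ih (fun x hx => h x (Multiset.mem_cons_of_mem hx))
    have h2 := h t (Multiset.mem_cons_self _ _)
    nlinarith

theorem sum_le_prod (T : Multiset ℝ) (h : ∀ t ∈ T, 1 ≤ t) :
    T.sum ≤ (T.card : ℝ) - 1 + T.prod := by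
  induction T using Multiset.induction_on with
  | empty => simp
  | cons t T ih =>
    have hT : ∀ x ∈ T, 1 ≤ x := fun x hx => h x (Multiset.mem_cons_of_mem hx)
    have h1 := ih hT
    have h2 := h t (Multiset.mem_cons_self _ _)
    have h3 := prod_ge_one T hT
    rw [Multiset.sum_cons, Multiset.prod_cons, Multiset.card_cons]
    push_cast
    nlinarith

theorem norm_sum_le (W : Multiset ℂ) : ‖W.sum‖ ≤ (W.map (fun w => ‖w‖)).sum := by
  induction W using Multiset.induction_on with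
  | empty => simp
  | cons w W ih =>
    rw [Multiset.sum_cons, Multiset.map_cons, Multiset.sum_cons]
    exact (norm_add_le _ _).trans (by linarith)

theorem prod_map_sq (B : Multiset ℂ) (u : ℝ) :
    (B.map (fun β => (u * ‖β‖)^2)).prod = (u ^ B.card * ‖B.prod‖)^2 := by
  induction B using Multiset.induction_on with
  | empty => simp
  | cons b B ih =>
    rw [Multiset.map_cons, Multiset.prod_cons, ih, Multiset.card_cons, Multiset.prod_cons, norm_mul]
    ring

theorem sum_hB2 (B : Multiset ℂ) (a : ℂ) (c : ℝ)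
    (h : ∀ β ∈ B, 1 - c * ‖β‖^2 ≤ 2 * (a * β).re) :
    (B.card : ℝ) - c * (B.map (fun β => ‖β‖^2)).sum ≤ 2 * (a * B.sum).re := by
  induction B using Multiset.induction_on with
  | empty => simp
  | cons b B ih =>
    have h1 := ih (fun x hx => h x (Multiset.mem_cons_of_mem hx))
    have h2 := h b (Multiset.mem_cons_self _ _)
    rw [Multiset.card_cons, Multiset.map_cons, Multiset.sum_cons, Multiset.sum_cons, mul_add a,
      Complex.add_re]
    push_cast
    linarith

theorem sum_map_sq (B : Multiset ℂ) (u : ℝ) :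
    (B.map (fun β => (u * ‖β‖)^2)).sum = u^2 * (B.map (fun β => ‖β‖^2)).sum := by
  rw [← Multiset.sum_map_mul_left]
  congr 1
  apply Multiset.map_congr rfl
  intro x _
  ring

/-- the inequality in terms of the reciprocals -/
theorem core (n : ℝ) (hn : 1 ≤ n) (a : ℂ) (ha : ‖a‖ ≤ 1) (W B : Multiset ℂ)
    (hWB : W.card = B.card) (hsum : W.sum = 2 * B.sum) (hprod : ‖W.prod‖ = n * ‖B.prod‖)
    (hW0 : ∀ w ∈ W, w ≠ 0) (hB1 : ∀ β ∈ B, 1 ≤ (1 + ‖a‖) * ‖β‖)
    (hB2 : ∀ β ∈ B, 1 - (1 - ‖a‖^2) * ‖β‖^2 ≤ 2 * (a * β).re)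
    (hcrit : ((B.card : ℝ) - 1) + ((1 + ‖a‖) ^ B.card / n)^2 ≤ B.card * (1 + ‖a‖)) :
    (B.card : ℝ) ≤ (W.map (fun w => ‖w‖)).sum := by
  rcases le_or_gt 1 ‖W.prod‖ with hA | hA
  · have h1 := log_bound W hW0
    have h2 := Real.log_nonneg hA
    rw [hWB] at h1
    linarith
  · set r := ‖a‖ with hr
    have hr0 : 0 ≤ r := norm_nonneg a
    set u := 1 + r with hu
    have hu1 : 1 ≤ u := by linarith
    set T := B.map (fun β => (u * ‖β‖)^2) with hT
    have hT1 : ∀ t ∈ T, 1 ≤ t := by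
      intro t ht
      rw [hT, Multiset.mem_map] at ht
      obtain ⟨β, hβ, rfl⟩ := ht
      exact one_le_pow₀ (hB1 β hβ)
    have hTprod : T.prod = (u ^ B.card * ‖B.prod‖)^2 := prod_map_sq B u
    have hTsum : T.sum = u^2 * (B.map (fun β => ‖β‖^2)).sum := sum_map_sq B u
    have hTcard : T.card = B.card := by rw [hT, Multiset.card_map]
    have hBn : ‖B.prod‖ < 1 / n := by
      rw [lt_div_iff₀ (by linarith)]
      rw [hprod] at hA
      linarith
    have h1 := sum_le_prod T hT1
    rw [hTprod, hTsum, hTcard] at h1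
    have h2 : (u ^ B.card * ‖B.prod‖)^2 ≤ (u ^ B.card / n)^2 := by
      have : u ^ B.card * ‖B.prod‖ ≤ u ^ B.card / n := by
        rw [div_eq_mul_one_div]
        gcongr
      gcongr
    set S := (B.map (fun β => ‖β‖^2)).sum with hS
    have h3 : u * S ≤ B.card := by
      have h4 : u^2 * S ≤ B.card * u := by linarith
      have h5 : u * (u * S) ≤ u * B.card := by nlinarith
      exact le_of_mul_le_mul_left h5 (by linarith)
    have h4 := sum_hB2 B a (1 - r^2) hB2
    rw [← hS] at h4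
    have h5 : (1 - r^2) * S ≤ (1 - r) * B.card := by
      have e : (1 - r^2) * S = (1 - r) * (u * S) := by rw [hu]; ring
      rw [e]
      exact mul_le_mul_of_nonneg_left h3 (by linarith)
    have h6 : (a * B.sum).re ≤ r * ‖B.sum‖ := by
      rw [hr, ← norm_mul]
      exact Complex.re_le_norm _
    have h7 : r * B.card ≤ r * (2 * ‖B.sum‖) := by linarith
    have h8 : ‖W.sum‖ = 2 * ‖B.sum‖ := by
      rw [hsum, norm_mul]
      simp
    have h9 := norm_sum_le W
    rw [h8] at h9
    rcases hr0.lt_or_eq with hpos | hzero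
    · have := le_of_mul_le_mul_left h7 hpos
      linarith
    · -- r = 0 is impossible
      exfalso
      have hu' : u = 1 := by rw [hu, ← hzero]; ring
      have h10 := prod_ge_one T hT1
      rw [hTprod, hu', one_pow, one_mul] at h10
      have h11 : ‖B.prod‖ < 1 := hBn.trans_le ((div_le_one (by linarith)).2 hn)
      have h12 := norm_nonneg B.prod
      nlinarith

theorem beta_facts (a z : ℂ) (hz : ‖z‖ ≤ 1) (haz : a ≠ z) :
    1 ≤ (1 + ‖a‖) * ‖1 / (a - z)‖ ∧
      1 - (1 - ‖a‖^2) * ‖1 / (a - z)‖^2 ≤ 2 * (a * (1 / (a - z))).re := by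
  have h0 : a - z ≠ 0 := sub_ne_zero.2 haz
  have hpos : 0 < ‖a - z‖ := norm_pos_iff.2 h0
  constructor
  · rw [norm_div, norm_one, mul_one_div, le_div_iff₀ hpos, one_mul]
    have := norm_sub_le a z
    linarith
  · have e1 : ‖a - z‖^2 = ‖a‖^2 - 2 * (a * (starRingEnd ℂ) z).re + ‖z‖^2 := by
      rw [← Complex.normSq_eq_norm_sq, ← Complex.normSq_eq_norm_sq, ← Complex.normSq_eq_norm_sq,
        Complex.normSq_sub]
      ring
    have e2 : (a * (1 / (a - z))).re = (a * (starRingEnd ℂ) (a - z)).re / ‖a - z‖^2 := by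
      rw [← Complex.normSq_eq_norm_sq]
      have : a * (1 / (a - z)) = a * (starRingEnd ℂ) (a - z) / ((Complex.normSq (a - z) : ℝ) : ℂ) := by
        rw [← Complex.mul_conj]
        have hc : (starRingEnd ℂ) (a - z) ≠ 0 := by
          rw [Ne, map_eq_zero]; exact h0
        field_simp
      rw [this, Complex.div_ofReal_re]
    have e3 : (a * (starRingEnd ℂ) (a - z)).re = ‖a‖^2 - (a * (starRingEnd ℂ) z).re := by
      rw [map_sub, mul_sub, Complex.sub_re, Complex.mul_conj, Complex.ofReal_re,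
        Complex.normSq_eq_norm_sq]
    rw [e2, e3, norm_div, norm_one, div_pow, one_pow]
    have hsq : 0 < ‖a - z‖^2 := by positivity
    rw [mul_one_div, ← mul_div_assoc, ← sub_nonneg]
    have : 2 * (‖a‖^2 - (a * (starRingEnd ℂ) z).re) / ‖a - z‖^2 - (1 - (1 - ‖a‖^2) / ‖a - z‖^2) =
        (2 * (‖a‖^2 - (a * (starRingEnd ℂ) z).re) - ‖a - z‖^2 + (1 - ‖a‖^2)) / ‖a - z‖^2 := by
      field_simp
      ring
    rw [this]
    apply div_nonneg _ hsq.le
    rw [e1]
    have : ‖z‖^2 ≤ 1 := by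
      have := norm_nonneg z
      nlinarith
    linarith

/-- the main inequality under the numerical criterion -/
theorem real_version (P : ℂ[X]) (hn : 2 ≤ P.natDegree) (hz : ∀ z ∈ P.roots, ‖z‖ ≤ 1) (a : ℂ)
    (ha : a ∈ P.roots) (hd : P.derivative.eval a ≠ 0)
    (hcrit : (((P.natDegree - 1 : ℕ) : ℝ) - 1) +
      ((1 + ‖a‖) ^ (P.natDegree - 1) / (P.natDegree : ℝ))^2 ≤
        ((P.natDegree - 1 : ℕ) : ℝ) * (1 + ‖a‖)) :
    ((P.natDegree - 1 : ℕ) : ℝ) ≤ (P.derivative.roots.map (fun ζ => ‖1 / (a - ζ)‖)).sum := by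
  have hP0 : P ≠ 0 := by rintro rfl; simp at hn
  have ha1 : ‖a‖ ≤ 1 := hz a ha
  have hroot : P.IsRoot a := (mem_roots hP0).1 ha
  obtain ⟨R, hR⟩ := dvd_iff_isRoot.2 hroot
  have hR0 : R ≠ 0 := by rintro rfl; rw [mul_zero] at hR; exact hP0 hR
  have hXa : (X - C a : ℂ[X]) ≠ 0 := X_sub_C_ne_zero a
  have hroots : P.roots = {a} + R.roots := by
    rw [hR, roots_mul (by rw [← hR]; exact hP0), roots_X_sub_C]
  have hdegR : R.natDegree + 1 = P.natDegree := by
    conv_rhs => rw [hR, natDegree_mul hXa hR0, natDegree_X_sub_C]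
    ring
  have hlead : R.leadingCoeff = P.leadingCoeff := by
    conv_rhs => rw [hR, leadingCoeff_mul, leadingCoeff_X_sub_C, one_mul]
  have hd1 : P.derivative.eval a = R.eval a := by
    rw [hR]; simp
  have hd2 : P.derivative.derivative.eval a = 2 * R.derivative.eval a := by
    rw [hR]; simp; ring
  have hRa : R.eval a ≠ 0 := by rw [← hd1]; exact hd
  have hRspl : R.Splits := IsAlgClosed.splits R
  have hDspl : P.derivative.Splits := IsAlgClosed.splits _
  have hD0 : P.derivative ≠ 0 := by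
    intro h; rw [h] at hd; simp at hd
  set W : Multiset ℂ := P.derivative.roots.map (fun ζ => 1 / (a - ζ)) with hW
  set B : Multiset ℂ := R.roots.map (fun z => 1 / (a - z)) with hB
  have hcardR : R.roots.card = P.natDegree - 1 := by
    rw [← hRspl.natDegree_eq_card_roots]; omega
  have hcardD : P.derivative.roots.card = P.natDegree - 1 := by
    rw [← hDspl.natDegree_eq_card_roots, natDegree_derivative]
  have hBcard : B.card = P.natDegree - 1 := by rw [hB, Multiset.card_map, hcardR]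
  have hWcard : W.card = P.natDegree - 1 := by rw [hW, Multiset.card_map, hcardD]
  have hsum : W.sum = 2 * B.sum := by
    rw [hW, hB, ← hDspl.eval_derivative_div_eval_of_ne_zero hd,
      ← hRspl.eval_derivative_div_eval_of_ne_zero hRa, hd2, hd1]
    ring
  have hprodW : W.prod * (P.derivative.roots.map (fun ζ => a - ζ)).prod = 1 := by
    rw [hW, ← Multiset.prod_map_mul]
    apply Multiset.prod_eq_one
    intro x hx
    rw [Multiset.mem_map] at hx
    obtain ⟨ζ, hζ, rfl⟩ := hx
    have : a - ζ ≠ 0 := by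
      intro h
      have : a = ζ := sub_eq_zero.1 h
      rw [← this, mem_roots hD0] at hζ
      exact hd hζ
    field_simp
  have hprodB : B.prod * (R.roots.map (fun z => a - z)).prod = 1 := by
    rw [hB, ← Multiset.prod_map_mul]
    apply Multiset.prod_eq_one
    intro x hx
    rw [Multiset.mem_map] at hx
    obtain ⟨z, hz', rfl⟩ := hx
    have : a - z ≠ 0 := by
      intro h
      have : a = z := sub_eq_zero.1 h
      rw [← this, mem_roots hR0] at hz'
      exact hRa hz'
    field_simp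
  have hprod : W.prod = P.natDegree * B.prod := by
    have h1 := hDspl.eval_eq_prod_roots a
    have h2 := hRspl.eval_eq_prod_roots a
    rw [hd1, h2, leadingCoeff_derivative, hlead] at h1
    have hl : P.leadingCoeff ≠ 0 := leadingCoeff_ne_zero.2 hP0
    have h3 : (R.roots.map (fun z => a - z)).prod =
        P.natDegree * (P.derivative.roots.map (fun ζ => a - ζ)).prod := by
      apply mul_left_cancel₀ hl
      rw [h1]; ring
    rw [h3] at hprodB
    have hne : (P.derivative.roots.map (fun ζ => a - ζ)).prod ≠ 0 := by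
      intro h; rw [h, mul_zero] at hprodW; exact zero_ne_one hprodW
    apply mul_right_cancel₀ hne
    rw [hprodW, ← hprodB]; ring
  have hfin := core (P.natDegree : ℝ) (by exact_mod_cast (by omega : 1 ≤ P.natDegree)) a ha1 W B
    (by rw [hWcard, hBcard]) hsum (by rw [hprod, norm_mul]; simp)
    (by
      intro w hw
      rw [hW, Multiset.mem_map] at hw
      obtain ⟨ζ, hζ, rfl⟩ := hw
      apply one_div_ne_zero
      intro h
      have : a = ζ := sub_eq_zero.1 h
      rw [← this, mem_roots hD0] at hζ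
      exact hd hζ)
    (by
      intro β hβ
      rw [hB, Multiset.mem_map] at hβ
      obtain ⟨z, hz', rfl⟩ := hβ
      refine (beta_facts a z (hz z ?_) ?_).1
      · rw [hroots]; exact Multiset.mem_add.2 (Or.inr hz')
      · rintro rfl; rw [mem_roots hR0] at hz'; exact hRa hz')
    (by
      intro β hβ
      rw [hB, Multiset.mem_map] at hβ
      obtain ⟨z, hz', rfl⟩ := hβ
      refine (beta_facts a z (hz z ?_) ?_).2
      · rw [hroots]; exact Multiset.mem_add.2 (Or.inr hz')
      · rintro rfl; rw [mem_roots hR0] at hz'; exact hRa hz')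
    (by rw [hBcard]; exact hcrit)
  rw [hBcard, hW, Multiset.map_map] at hfin
  exact hfin

theorem sigma_eq (Z : Multiset ℂ) (a : ℂ) (h : ∀ ζ ∈ Z, a ≠ ζ) :
    (Z.map fun ζ => (‖a - ζ‖ₑ)⁻¹).sum = ENNReal.ofReal (Z.map (fun ζ => ‖1 / (a - ζ)‖)).sum := by
  induction Z using Multiset.induction_on with
  | empty => simp
  | cons ζ Z ih =>
    have h1 := ih (fun x hx => h x (Multiset.mem_cons_of_mem hx))
    have h2 : 0 < ‖a - ζ‖ := norm_pos_iff.2 (sub_ne_zero.2 (h ζ (Multiset.mem_cons_self _ _)))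
    rw [Multiset.map_cons, Multiset.sum_cons, Multiset.map_cons, Multiset.sum_cons, h1,
      ENNReal.ofReal_add (norm_nonneg _) (Multiset.sum_nonneg (by
        intro x hx
        rw [Multiset.mem_map] at hx
        obtain ⟨y, -, rfl⟩ := hx
        exact norm_nonneg _))]
    congr 1
    rw [norm_div, norm_one, ENNReal.ofReal_div_of_pos h2, ENNReal.ofReal_one, one_div,
      ofReal_norm]

theorem sigma_version (P : ℂ[X]) (hn : 2 ≤ P.natDegree) (hz : ∀ z ∈ P.roots, ‖z‖ ≤ 1) (a : ℂ)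
    (ha : a ∈ P.roots)
    (hcrit : (((P.natDegree - 1 : ℕ) : ℝ) - 1) +
      ((1 + ‖a‖) ^ (P.natDegree - 1) / (P.natDegree : ℝ))^2 ≤
        ((P.natDegree - 1 : ℕ) : ℝ) * (1 + ‖a‖)) :
    ((P.natDegree - 1 : ℕ) : ℝ≥0∞) ≤ Sigma P a := by
  have hP0 : P ≠ 0 := by rintro rfl; simp at hn
  have hD0 : P.derivative ≠ 0 := derivative_ne_zero.2 (by omega)
  by_cases hd : P.derivative.eval a = 0
  · have hmem : a ∈ P.derivative.roots := (mem_roots hD0).2 hd
    have h1 : (‖a - a‖ₑ)⁻¹ ∈ (P.derivative.roots.map fun ζ => (‖a - ζ‖ₑ)⁻¹) :=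
      Multiset.mem_map.2 ⟨a, hmem, rfl⟩
    have h2 := Multiset.le_sum_of_mem h1
    rw [sub_self, enorm_zero, ENNReal.inv_zero, top_le_iff] at h2
    unfold Sigma
    rw [h2]
    exact le_top
  · have h1 := real_version P hn hz a ha hd hcrit
    unfold Sigma
    rw [sigma_eq _ a (by
      intro ζ hζ h
      rw [← h, mem_roots hD0] at hζ
      exact hd hζ)]
    rw [← ENNReal.ofReal_natCast]
    exact ENNReal.ofReal_le_ofReal h1

theorem prod_le_exp (T : Multiset ℝ) (h : ∀ t ∈ T, 0 ≤ t) :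
    0 ≤ T.prod ∧ T.prod ≤ Real.exp (T.sum - T.card) := by
  induction T using Multiset.induction_on with
  | empty => simp
  | cons t T ih =>
    obtain ⟨h1, h2⟩ := ih (fun x hx => h x (Multiset.mem_cons_of_mem hx))
    have h3 := h t (Multiset.mem_cons_self _ _)
    rw [Multiset.prod_cons, Multiset.sum_cons, Multiset.card_cons]
    refine ⟨mul_nonneg h3 h1, ?_⟩
    have h4 : t ≤ Real.exp (t - 1) := by
      have := Real.add_one_le_exp (t - 1)
      linarith
    have e : Real.exp (t + T.sum - ((T.card + 1 : ℕ) : ℝ)) =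
        Real.exp (t - 1) * Real.exp (T.sum - T.card) := by
      rw [← Real.exp_add]
      congr 1
      push_cast
      ring
    rw [e]
    exact mul_le_mul h4 h2 h1 (Real.exp_pos _).le

theorem prod_map_div (Y : Multiset ℝ) (m : ℝ) (hm : m ≠ 0) :
    (Y.map (fun y => y / m)).prod * m ^ Y.card = Y.prod := by
  induction Y using Multiset.induction_on with
  | empty => simp
  | cons y Y ih =>
    rw [Multiset.map_cons, Multiset.prod_cons, Multiset.card_cons, Multiset.prod_cons, ← ih]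
    field_simp
    ring

/-- the inequality between the arithmetic and the geometric mean -/
theorem amgm (Y : Multiset ℝ) (m : ℝ) (hm : 0 < m) (h : ∀ y ∈ Y, 0 ≤ y)
    (hs : Y.sum = m * Y.card) : Y.prod ≤ m ^ Y.card := by
  have h1 := (prod_le_exp (Y.map (fun y => y / m)) (by
    intro t ht
    rw [Multiset.mem_map] at ht
    obtain ⟨y, hy, rfl⟩ := ht
    exact div_nonneg (h y hy) hm.le)).2
  have e : (Y.map (fun y => y / m)).sum = Y.card := by
    rw [Multiset.sum_map_div, Multiset.map_id', hs]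
    field_simp
  rw [e, Multiset.card_map, sub_self, Real.exp_zero] at h1
  rw [← prod_map_div Y m hm.ne']
  have : 0 ≤ m ^ Y.card := by positivity
  nlinarith

theorem sum_map_lin (X : Multiset ℂ) (s : ℝ) :
    (X.map (fun w => 1 + s * ‖w‖)).sum = X.card + s * (X.map (fun w => ‖w‖)).sum := by
  induction X using Multiset.induction_on with
  | empty => simp
  | cons x X ih =>
    rw [Multiset.map_cons, Multiset.sum_cons, ih, Multiset.card_cons, Multiset.map_cons,
      Multiset.sum_cons]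
    push_cast
    ring

theorem norm_prod_le (X : Multiset ℂ) (e : ℂ) (he : ‖e‖ = 1) (s : ℝ) (hs : 0 ≤ s) :
    ‖(X.map (fun w => 1 + (s : ℂ) * e * w)).prod‖ ≤ (X.map (fun w => 1 + s * ‖w‖)).prod := by
  induction X using Multiset.induction_on with
  | empty => simp
  | cons x X ih =>
    rw [Multiset.map_cons, Multiset.prod_cons, Multiset.map_cons, Multiset.prod_cons, norm_mul]
    apply mul_le_mul _ ih (norm_nonneg _) (by positivity)
    refine (norm_add_le _ _).trans ?_
    rw [norm_one, norm_mul, norm_mul, he, mul_one, Complex.norm_real, Real.norm_of_nonneg hs]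

theorem prod_compare (M : Multiset ℂ) (a ζ : ℂ) (r : ℝ) (hr : 0 ≤ r)
    (h : ∀ z ∈ M, ‖a - z‖ ≤ r * ‖ζ - z‖) :
    ‖(M.map (fun z => a - z)).prod‖ ≤ r ^ M.card * ‖(M.map (fun z => ζ - z)).prod‖ := by
  induction M using Multiset.induction_on with
  | empty => simp
  | cons z M ih =>
    have h1 := ih (fun x hx => h x (Multiset.mem_cons_of_mem hx))
    have h2 := h z (Multiset.mem_cons_self _ _)
    rw [Multiset.map_cons, Multiset.prod_cons, Multiset.map_cons, Multiset.prod_cons, norm_mul,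
      norm_mul, Multiset.card_cons]
    calc ‖a - z‖ * ‖(M.map (fun z => a - z)).prod‖
        ≤ (r * ‖ζ - z‖) * (r ^ M.card * ‖(M.map (fun z => ζ - z)).prod‖) :=
          mul_le_mul h2 h1 (norm_nonneg _) (by positivity)
      _ = _ := by ring

/-- reflection in the unit circle -/
theorem refl_ineq (a z : ℂ) (r : ℝ) (hr : ‖a‖ = r) (hr0 : 0 < r) (hr1 : r ≤ 1) (hz : ‖z‖ ≤ 1) :
    ‖a - z‖ ≤ r * ‖a / (r : ℂ)^2 - z‖ := by
  have hrc : (r : ℂ) ≠ 0 := by exact_mod_cast hr0.ne'
  have e1 : a / (r : ℂ)^2 - z = (a - (r^2 : ℝ) * z) / ((r^2 : ℝ) : ℂ) := by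
    push_cast
    field_simp
  have e2 : ‖a / (r : ℂ)^2 - z‖ = ‖a - (r^2 : ℝ) * z‖ / r^2 := by
    rw [e1, norm_div, Complex.norm_real, Real.norm_of_nonneg (by positivity)]
  rw [e2]
  have h3 : r * (‖a - (r^2 : ℝ) * z‖ / r^2) = ‖a - (r^2 : ℝ) * z‖ / r := by
    field_simp
  rw [h3, le_div_iff₀ hr0]
  apply le_of_sq_le_sq _ (norm_nonneg _)
  have n1 : ‖a - z‖^2 = r^2 - 2 * (a * (starRingEnd ℂ) z).re + ‖z‖^2 := by
    rw [← Complex.normSq_eq_norm_sq, ← Complex.normSq_eq_norm_sq, Complex.normSq_sub,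
      Complex.normSq_eq_norm_sq, hr]
    ring
  have n2 : ‖a - (r^2 : ℝ) * z‖^2 = r^2 - 2 * r^2 * (a * (starRingEnd ℂ) z).re + r^4 * ‖z‖^2 := by
    rw [← Complex.normSq_eq_norm_sq, Complex.normSq_sub, Complex.normSq_eq_norm_sq, hr,
      Complex.normSq_mul, Complex.normSq_ofReal, Complex.normSq_eq_norm_sq, map_mul,
      Complex.conj_ofReal]
    have : (a * (((r^2 : ℝ) : ℂ) * (starRingEnd ℂ) z)).re = r^2 * (a * (starRingEnd ℂ) z).re := by
      have : a * (((r^2 : ℝ) : ℂ) * (starRingEnd ℂ) z) = ((r^2 : ℝ) : ℂ) * (a * (starRingEnd ℂ) z) := by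
        ring
      rw [this, Complex.re_ofReal_mul]
    rw [this]
    ring
  rw [mul_pow, n1, n2]
  have hz2 : 0 ≤ 1 - ‖z‖^2 := by nlinarith [norm_nonneg z]
  have hr2 : 0 ≤ 1 - r^2 := by nlinarith
  have := mul_nonneg (mul_nonneg (sq_nonneg r) hr2) hz2
  nlinarith

theorem real_version2 (P : ℂ[X]) (hn : 2 ≤ P.natDegree) (hz : ∀ z ∈ P.roots, ‖z‖ ≤ 1) (a : ℂ)
    (ha : a ∈ P.roots) (hd : P.derivative.eval a ≠ 0) (ha0 : 0 < ‖a‖) (ha1 : ‖a‖ < 1)
    (hcrit : (1 + ‖a‖ - ‖a‖^2)^P.natDegree ≤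
      (P.natDegree : ℝ) * (1 - ‖a‖^2) + ‖a‖^P.natDegree) :
    ((P.natDegree - 1 : ℕ) : ℝ) ≤ (P.derivative.roots.map (fun ζ => ‖1 / (a - ζ)‖)).sum := by
  by_contra hcon
  push Not at hcon
  have hP0 : P ≠ 0 := by rintro rfl; simp at hn
  have hroot : P.IsRoot a := (mem_roots hP0).1 ha
  obtain ⟨R, hR⟩ := dvd_iff_isRoot.2 hroot
  have hR0 : R ≠ 0 := by rintro rfl; rw [mul_zero] at hR; exact hP0 hR
  have hXa : (X - C a : ℂ[X]) ≠ 0 := X_sub_C_ne_zero a
  have hroots : P.roots = {a} + R.roots := by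
    rw [hR, roots_mul (by rw [← hR]; exact hP0), roots_X_sub_C]
  have hdegR : R.natDegree + 1 = P.natDegree := by
    conv_rhs => rw [hR, natDegree_mul hXa hR0, natDegree_X_sub_C]
    ring
  have hd1 : P.derivative.eval a = R.eval a := by
    rw [hR]; simp
  have hRspl : R.Splits := IsAlgClosed.splits R
  have hDspl : P.derivative.Splits := IsAlgClosed.splits _
  have hD0 : P.derivative ≠ 0 := by
    intro h; rw [h] at hd; simp at hd
  have hcardR : R.roots.card = P.natDegree - 1 := by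
    rw [← hRspl.natDegree_eq_card_roots]; omega
  have hcardD : P.derivative.roots.card = P.natDegree - 1 := by
    rw [← hDspl.natDegree_eq_card_roots, natDegree_derivative]
  have hne : ∀ ζ ∈ P.derivative.roots, a - ζ ≠ 0 := by
    intro ζ hζ h
    have : a = ζ := sub_eq_zero.1 h
    rw [← this, mem_roots hD0] at hζ
    exact hd hζ
  set n := P.natDegree with hndef
  set N := n - 1 with hN
  have hNpos : 0 < N := by omega
  have hnN : n = N + 1 := by omega
  set r := ‖a‖ with hr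
  set D := ‖P.derivative.eval a‖ with hD
  have hDpos : 0 < D := norm_pos_iff.2 hd
  set W : Multiset ℂ := P.derivative.roots.map (fun ζ => 1 / (a - ζ)) with hW
  have hWcard : W.card = N := by rw [hW, Multiset.card_map, hcardD]
  set S := (W.map (fun w => ‖w‖)).sum with hS
  have hSN : S < N := by
    rw [hS, hW, Multiset.map_map]
    exact hcon
  have hS0 : 0 ≤ S := Multiset.sum_nonneg (by
    intro x hx
    rw [Multiset.mem_map] at hx
    obtain ⟨y, -, rfl⟩ := hx
    exact norm_nonneg _)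
  have hNr : (0 : ℝ) < N := by exact_mod_cast hNpos
  set κ := (S / N + 1) / 2 with hκ
  have hκ0 : 0 < κ := by positivity
  have hSN' : S / N < 1 := (div_lt_one hNr).2 hSN
  have hκ1 : κ < 1 := by linarith
  have hκS : S / N ≤ κ := by linarith
  have hrc : (r : ℂ) ≠ 0 := by exact_mod_cast ha0.ne'
  set e : ℂ := a / r with he
  have he1 : ‖e‖ = 1 := by
    rw [he, norm_div, Complex.norm_real, Real.norm_of_nonneg ha0.le, ← hr, div_self ha0.ne']
  -- the bound for the derivative
  have hbound : ∀ s : ℝ, 0 ≤ s → ‖P.derivative.eval (a + s * e)‖ ≤ D * (1 + κ * s)^N := by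
    intro s hs
    have h1 : P.derivative.eval (a + s * e) =
        P.derivative.eval a * (W.map (fun w => 1 + (s : ℂ) * e * w)).prod := by
      rw [hDspl.eval_eq_prod_roots (a + s * e), hDspl.eval_eq_prod_roots a, hW, Multiset.map_map,
        mul_assoc, ← Multiset.prod_map_mul]
      congr 2
      apply Multiset.map_congr rfl
      intro ζ hζ
      have := hne ζ hζ
      simp only [Function.comp]
      field_simp
      ring
    rw [h1, norm_mul]
    apply mul_le_mul_of_nonneg_left _ hDpos.le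
    refine (norm_prod_le W e he1 s hs).trans ?_
    have hm : 0 < 1 + s * (S / N) := by positivity
    have hc1 : (W.map (fun w => 1 + s * ‖w‖)).card = N := by rw [Multiset.card_map, hWcard]
    have h2 := amgm (W.map (fun w => 1 + s * ‖w‖)) (1 + s * (S / N)) hm (by
      intro y hy
      rw [Multiset.mem_map] at hy
      obtain ⟨w, -, rfl⟩ := hy
      positivity) (by
      rw [sum_map_lin, hc1, hWcard, ← hS]
      field_simp)
    rw [hc1] at h2
    refine h2.trans ?_
    apply pow_le_pow_left₀ hm.le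
    have := mul_le_mul_of_nonneg_left hκS hs
    linarith
  set t := (1 - r^2) / r with ht
  have hr2 : 0 < 1 - r^2 := by nlinarith
  have ht0 : 0 < t := div_pos hr2 ha0
  have hnpos : (0 : ℝ) < n := by rw [hnN]; positivity
  -- integrate
  have hint : ‖P.eval (a + t * e)‖ ≤ D * ((1 + κ * t)^n - 1) / (n * κ) := by
    have hf' : ∀ s : ℝ, HasDerivAt (fun s : ℝ => P.eval (a + s * e))
        (P.derivative.eval (a + s * e) * e) s := by
      intro s
      have h1 : HasDerivAt (fun s : ℝ => a + (s : ℂ) * e) e s := by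
        have := ((Complex.ofRealCLM.hasDerivAt (x := s)).mul_const e).const_add a
        simpa using this
      have h2 := (P.hasDerivAt (a + s * e)).comp s h1
      exact h2
    have hB : ∀ s : ℝ, HasDerivAt (fun s : ℝ => D * ((1 + κ * s)^n - 1) / (n * κ))
        (D * (1 + κ * s)^N) s := by
      intro s
      have h1 : HasDerivAt (fun s : ℝ => 1 + κ * s) κ s := by
        have := ((hasDerivAt_id s).const_mul κ).const_add 1
        simpa using this
      have h2 := (((h1.fun_pow n).sub_const 1).const_mul D).div_const (n * κ)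
      refine h2.congr_deriv ?_
      rw [← hN]
      field_simp
    have h3 := image_norm_le_of_norm_deriv_right_le_deriv_boundary
      (f := fun s : ℝ => P.eval (a + s * e)) (f' := fun s : ℝ => P.derivative.eval (a + s * e) * e)
      (a := 0) (b := t) (B := fun s : ℝ => D * ((1 + κ * s)^n - 1) / (n * κ))
      (B' := fun s : ℝ => D * (1 + κ * s)^N)
      (fun s _ => (hf' s).continuousAt.continuousWithinAt)
      (fun s _ => (hf' s).hasDerivWithinAt)
      (by
        have : P.eval a = 0 := hroot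
        simp [this])
      hB
      (by
        intro s hs
        rw [norm_mul, he1, mul_one]
        exact hbound s hs.1)
    exact h3 ⟨ht0.le, le_rfl⟩
  have hstrict : D * ((1 + κ * t)^n - 1) / (n * κ) < D * ((1 + t)^n - 1) / n := by
    have h1 := (strictConvexOn_pow hn).2 (show (1 : ℝ) ∈ Set.Ici 0 by simp)
      (show (1 + t : ℝ) ∈ Set.Ici 0 by simp; linarith) (by linarith : (1 : ℝ) ≠ 1 + t)
      (show 0 < 1 - κ by linarith) hκ0 (by ring)
    simp only [smul_eq_mul, one_pow, mul_one] at h1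
    have e1 : 1 - κ + κ * (1 + t) = 1 + κ * t := by ring
    rw [e1] at h1
    rw [div_lt_div_iff₀ (by positivity) hnpos]
    have h2 : (1 + κ * t)^n - 1 < κ * ((1 + t)^n - 1) := by linarith
    have h3 : 0 < D * n := by positivity
    nlinarith
  -- the value at the reflected point
  have hpt : a + t * e = a / (r : ℂ)^2 := by
    rw [he, ht]
    push_cast
    field_simp
    ring
  rw [hpt] at hint
  set ζ0 := a / (r : ℂ)^2 with hζ0
  have hev : P.eval ζ0 = (ζ0 - a) * R.eval ζ0 := by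
    conv_lhs => rw [hR]
    simp
  have hdist : ‖ζ0 - a‖ = t := by
    rw [← hpt]
    have : a + (t : ℂ) * e - a = t * e := by ring
    rw [this, norm_mul, he1, mul_one, Complex.norm_real, Real.norm_of_nonneg ht0.le]
  have hlow : D ≤ r ^ N * ‖R.eval ζ0‖ := by
    rw [hD, hd1, hRspl.eval_eq_prod_roots a, hRspl.eval_eq_prod_roots ζ0, norm_mul, norm_mul]
    have h1 := prod_compare R.roots a ζ0 r ha0.le (by
      intro z hz'
      apply refl_ineq a z r rfl ha0 ha1.le (hz z ?_)
      rw [hroots]; exact Multiset.mem_add.2 (Or.inr hz'))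
    rw [hcardR] at h1
    have h2 := mul_le_mul_of_nonneg_left h1 (norm_nonneg R.leadingCoeff)
    calc ‖R.leadingCoeff‖ * ‖(R.roots.map (fun z => a - z)).prod‖
        ≤ ‖R.leadingCoeff‖ * (r ^ N * ‖(R.roots.map (fun z => ζ0 - z)).prod‖) := h2
      _ = _ := by ring
  rw [hev, norm_mul, hdist] at hint
  have hrN : 0 < r ^ N := by positivity
  have hfin : t * D < r ^ N * (D * ((1 + t)^n - 1) / n) := by
    calc t * D ≤ t * (r ^ N * ‖R.eval ζ0‖) := mul_le_mul_of_nonneg_left hlow ht0.le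
      _ = r ^ N * (t * ‖R.eval ζ0‖) := by ring
      _ ≤ r ^ N * (D * ((1 + κ * t)^n - 1) / (n * κ)) := mul_le_mul_of_nonneg_left hint hrN.le
      _ < _ := mul_lt_mul_of_pos_left hstrict hrN
  have hfin2 : n * t < r ^ N * ((1 + t)^n - 1) := by
    have e1 : r ^ N * (D * ((1 + t)^n - 1) / n) = D * (r ^ N * ((1 + t)^n - 1)) / n := by ring
    rw [e1, lt_div_iff₀ hnpos] at hfin
    have h2 : D * (n * t) < D * (r ^ N * ((1 + t)^n - 1)) := by linarith
    exact lt_of_mul_lt_mul_left h2 hDpos.le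
  have e3 : r * (1 + t) = 1 + r - r^2 := by
    rw [ht]; field_simp; ring
  have e4 : r * t = 1 - r^2 := by
    rw [ht]; field_simp
  have h5 : r * (n * t) < r * (r ^ N * ((1 + t)^n - 1)) := mul_lt_mul_of_pos_left hfin2 ha0
  have e5 : r * (r ^ N * ((1 + t)^n - 1)) = (r * (1 + t))^n - r^n := by
    rw [mul_pow, hnN, pow_succ r N]; ring
  rw [e5, e3] at h5
  have e6 : r * (n * t) = n * (1 - r^2) := by rw [← e4]; ring
  rw [e6] at h5
  linarith

theorem sigma_version2 (P : ℂ[X]) (hn : 2 ≤ P.natDegree) (hz : ∀ z ∈ P.roots, ‖z‖ ≤ 1) (a : ℂ)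
    (ha : a ∈ P.roots) (ha1 : ‖a‖ < 1)
    (hcrit : (1 + ‖a‖ - ‖a‖^2)^P.natDegree ≤
      (P.natDegree : ℝ) * (1 - ‖a‖^2) + ‖a‖^P.natDegree) :
    ((P.natDegree - 1 : ℕ) : ℝ≥0∞) ≤ Sigma P a := by
  rcases (norm_nonneg a).eq_or_lt with h0 | h0
  · apply sigma_version P hn hz a ha
    rw [← h0]
    have h1 : (1 : ℝ) ≤ P.natDegree := by exact_mod_cast (by omega : 1 ≤ P.natDegree)
    have h2 : (1 / (P.natDegree : ℝ))^2 ≤ 1 := by
      have h3 : 1 / (P.natDegree : ℝ) ≤ 1 := (div_le_one (by linarith)).2 h1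
      have h4 : 0 ≤ 1 / (P.natDegree : ℝ) := by positivity
      nlinarith
    simp only [add_zero, one_pow, mul_one]
    linarith
  · have hP0 : P ≠ 0 := by rintro rfl; simp at hn
    have hD0 : P.derivative ≠ 0 := derivative_ne_zero.2 (by omega)
    by_cases hd : P.derivative.eval a = 0
    · have hmem : a ∈ P.derivative.roots := (mem_roots hD0).2 hd
      have h1 : (‖a - a‖ₑ)⁻¹ ∈ (P.derivative.roots.map fun ζ => (‖a - ζ‖ₑ)⁻¹) :=
        Multiset.mem_map.2 ⟨a, hmem, rfl⟩
      have h2 := Multiset.le_sum_of_mem h1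
      rw [sub_self, enorm_zero, ENNReal.inv_zero, top_le_iff] at h2
      unfold Sigma
      rw [h2]
      exact le_top
    · have h1 := real_version2 P hn hz a ha hd h0 ha1 hcrit
      unfold Sigma
      rw [sigma_eq _ a (by
        intro ζ hζ h
        rw [← h, mem_roots hD0] at hζ
        exact hd hζ)]
      rw [← ENNReal.ofReal_natCast]
      exact ENNReal.ofReal_le_ofReal h1

theorem crit_two (r : ℝ) (h0 : 0 ≤ r) (h1 : r ≤ 1) :
    (((2 - 1 : ℕ) : ℝ) - 1) + ((1 + r) ^ (2 - 1) / ((2 : ℕ) : ℝ))^2 ≤ ((2 - 1 : ℕ) : ℝ) * (1 + r) := by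
  norm_num
  nlinarith

theorem crit_three (r : ℝ) (h0 : 0 ≤ r) (h1 : r ≤ 1) :
    (((3 - 1 : ℕ) : ℝ) - 1) + ((1 + r) ^ (3 - 1) / ((3 : ℕ) : ℝ))^2 ≤ ((3 - 1 : ℕ) : ℝ) * (1 + r) := by
  norm_num
  have h2 : (1 + r)^2 ≤ 4 := by nlinarith
  have h3 : 0 ≤ (1 + r)^2 := by positivity
  have h4 : ((1 + r)^2 / 3)^2 ≤ (1 + r)^2 * (4 / 9) := by nlinarith
  nlinarith

theorem crit_four (r : ℝ) (h0 : 0 ≤ r) (h1 : r ≤ 1) :
    (((4 - 1 : ℕ) : ℝ) - 1) + ((1 + r) ^ (4 - 1) / ((4 : ℕ) : ℝ))^2 ≤ ((4 - 1 : ℕ) : ℝ) * (1 + r) := by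
  norm_num
  set u := 1 + r with hu
  have hu1 : 1 ≤ u := by linarith
  have hu2 : 0 ≤ 2 - u := by linarith
  have h3 : 0 ≤ (2 - u) * (u^5 + 2*u^4 + 4*u^3 + 8*u^2 + 16*u - 16) := by
    apply mul_nonneg hu2
    have : 0 ≤ u^5 := by positivity
    have : 0 ≤ u^4 := by positivity
    have : 0 ≤ u^3 := by positivity
    have : 0 ≤ u^2 := by positivity
    linarith
  have e : (2 - u) * (u^5 + 2*u^4 + 4*u^3 + 8*u^2 + 16*u - 16) = 48*u - 32 - u^6 := by ring
  rw [e] at h3
  have e2 : (u^3/4)^2 = u^6/16 := by ring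
  rw [e2]
  linarith

theorem crit_five (r : ℝ) (h0 : 0 ≤ r) (h1 : r ≤ 1) :
    (1 + r - r^2)^5 ≤ ((5 : ℕ) : ℝ) * (1 - r^2) + r^5 := by
  have e : ((5 : ℕ) : ℝ) * (1 - r^2) + r^5 - (1 + r - r^2)^5 =
      (1 - r)^4 * (4 + 11*r + 10*r^2 - 5*r^4 - r^5 + r^6) := by
    push_cast
    ring
  have h2 : 0 ≤ 4 + 11*r + 10*r^2 - 5*r^4 - r^5 + r^6 := by
    have a1 : r^4 ≤ r^2 := pow_le_pow_of_le_one h0 h1 (by norm_num)
    have a2 : r^5 ≤ r^2 := pow_le_pow_of_le_one h0 h1 (by norm_num)
    have a3 : 0 ≤ r^6 := by positivity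
    have a4 : 0 ≤ r^2 := by positivity
    linarith
  have h3 : 0 ≤ (1 - r)^4 * (4 + 11*r + 10*r^2 - 5*r^4 - r^5 + r^6) :=
    mul_nonneg (by positivity) h2
  rw [← e] at h3
  linarith

/-- Let `P` be a complex polynomial of degree `n ≥ 2` with all zeros in the closed unit disc and let
`a` be a zero of `P` with `|a| < 1`.  The sum of the reciprocal distances from `a` to the critical
points of `P` is at least `n - 1` in each of the following cases: (i) `n ≤ 5`; (ii) `|a| ≤ log n / n`;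
(iii) `(n - 2) + ((1 + |a|)^(n-1) / n)^2 ≤ (n-1) (1 + |a|)`;
(iv) `(1 + |a| - |a|^2)^n ≤ n (1 - |a|^2) + |a|^n`. -/
theorem result (P : ℂ[X]) (hn : 2 ≤ P.natDegree) (hz : ∀ z ∈ P.roots, ‖z‖ ≤ 1) (a : ℂ)
    (ha : a ∈ P.roots) (ha1 : ‖a‖ < 1)
    (h : P.natDegree ≤ 5 ∨ ‖a‖ ≤ Real.log P.natDegree / P.natDegree ∨
      ((P.natDegree : ℝ) - 2) + ((1 + ‖a‖) ^ (P.natDegree - 1) / (P.natDegree : ℝ)) ^ 2 ≤
        ((P.natDegree : ℝ) - 1) * (1 + ‖a‖) ∨
      (1 + ‖a‖ - ‖a‖ ^ 2) ^ P.natDegree ≤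
        (P.natDegree : ℝ) * (1 - ‖a‖ ^ 2) + ‖a‖ ^ P.natDegree) :
    ((P.natDegree - 1 : ℕ) : ℝ≥0∞) ≤ Sigma P a := by
  have ha0 : 0 ≤ ‖a‖ := norm_nonneg a
  rcases h with h | h | h | h
  · rcases (by omega : P.natDegree = 2 ∨ P.natDegree = 3 ∨ P.natDegree = 4 ∨ P.natDegree = 5) with
      h2 | h3 | h4 | h5
    · apply sigma_version P hn hz a ha
      rw [h2]; exact crit_two _ ha0 ha1.le
    · apply sigma_version P hn hz a ha
      rw [h3]; exact crit_three _ ha0 ha1.le
    · apply sigma_version P hn hz a ha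
      rw [h4]; exact crit_four _ ha0 ha1.le
    · apply sigma_version2 P hn hz a ha ha1
      rw [h5]; exact crit_five _ ha0 ha1.le
  · apply sigma_version P hn hz a ha
    have hnpos : (0 : ℝ) < P.natDegree := by
      have : 0 < P.natDegree := by omega
      exact_mod_cast this
    have h1 : (1 + ‖a‖) ^ (P.natDegree - 1) ≤ P.natDegree := by
      calc (1 + ‖a‖) ^ (P.natDegree - 1) ≤ (1 + ‖a‖) ^ P.natDegree :=
            pow_le_pow_right₀ (by linarith) (Nat.sub_le _ _)
        _ ≤ (Real.exp ‖a‖) ^ P.natDegree := by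
            gcongr
            rw [add_comm]; exact Real.add_one_le_exp _
        _ = Real.exp (P.natDegree * ‖a‖) := by rw [← Real.exp_nat_mul]
        _ ≤ Real.exp (Real.log P.natDegree) := by
            apply Real.exp_le_exp.2
            rw [le_div_iff₀ hnpos] at h
            linarith
        _ = P.natDegree := Real.exp_log hnpos
    have h2 : ((1 + ‖a‖) ^ (P.natDegree - 1) / (P.natDegree : ℝ))^2 ≤ 1 := by
      have h3 : (1 + ‖a‖) ^ (P.natDegree - 1) / (P.natDegree : ℝ) ≤ 1 := (div_le_one hnpos).2 h1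
      have h4 : 0 ≤ (1 + ‖a‖) ^ (P.natDegree - 1) / (P.natDegree : ℝ) := by positivity
      nlinarith
    have h5 : (0 : ℝ) ≤ ((P.natDegree - 1 : ℕ) : ℝ) := Nat.cast_nonneg _
    nlinarith
  · apply sigma_version P hn hz a ha
    have e : ((P.natDegree - 1 : ℕ) : ℝ) = (P.natDegree : ℝ) - 1 := by
      rw [Nat.cast_sub (by omega)]; simp
    rw [e]
    linarith
  · exact sigma_version2 P hn hz a ha ha1 h

end Pool.Agent.Results.MP_172a45_an.SmallDegree
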